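import Mathlib

/-!
The equality part (Q2) of the conjecture of Polyanskii fails in every even dimension `n ≥ 4`:
there are further configurations for which the maximum is `√(n + 2)`.
-/

set_option autoImplicit false

namespace Pool.Agent.Results.MP_4da8b1_gt.EqualityCase

/-- A balanced family: a finite set of at least `2` and at most `n + 1` unit vectors of `ℝ ^ n` such
that the origin is a linear combination of them with strictly positive coefficients. -/
def BalancedFamily {n : ℕ} (U : Finset (EuclideanSpace ℝ (Fin n))) : Prop :=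
  (∀ u ∈ U, ‖u‖ = 1) ∧ 2 ≤ U.card ∧ U.card ≤ n + 1 ∧
    ∃ w : EuclideanSpace ℝ (Fin n) → ℝ, (∀ u ∈ U, 0 < w u) ∧ ∑ u ∈ U, w u • u = 0

/-- `M` is the largest distance from `c` to a sum formed by choosing one vector from each of the
`n + 1` families. -/
def IsMaxDist {n : ℕ} (U : Fin (n + 1) → Finset (EuclideanSpace ℝ (Fin n)))
    (c : EuclideanSpace ℝ (Fin n)) (M : ℝ) : Prop :=
  IsGreatest {r : ℝ | ∃ s : Fin (n + 1) → EuclideanSpace ℝ (Fin n),
    (∀ i, s i ∈ U i) ∧ r = ‖(∑ i, s i) - c‖} M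

/-- The vectors `u i`, `i ∈ S`, are the vertices of a regular simplex: all their mutual distances
agree (and are positive). -/
def RegularSimplex {n : ℕ} (u : Fin (n + 1) → EuclideanSpace ℝ (Fin n)) (S : Finset (Fin (n + 1))) :
    Prop :=
  ∃ d : ℝ, 0 < d ∧ ∀ i ∈ S, ∀ j ∈ S, i ≠ j → ‖u i - u j‖ = d

/-- The conjectured equality cases (for all `n`): `c = 0`, each family is `{u, -u}` for a unit vector
`u`, and the vectors `u` are the vertices of a regular simplex if `n` is even, and for odd `n` they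
are, for some `1 ≤ k ≤ (n - 1) / 2`, the `2 k + 1` vertices of a regular simplex spanning a space
of dimension `2 k` together with an orthonormal set orthogonal to it. -/
def ConjecturedEquality {n : ℕ} (U : Fin (n + 1) → Finset (EuclideanSpace ℝ (Fin n)))
    (c : EuclideanSpace ℝ (Fin n)) : Prop :=
  c = 0 ∧ ∃ u : Fin (n + 1) → EuclideanSpace ℝ (Fin n),
    (∀ i, ‖u i‖ = 1 ∧ (U i : Set (EuclideanSpace ℝ (Fin n))) = {u i, -u i}) ∧
    ((Even n ∧ RegularSimplex u Finset.univ) ∨
      (Odd n ∧ ∃ k : ℕ, 1 ≤ k ∧ k ≤ (n - 1) / 2 ∧ ∃ S : Finset (Fin (n + 1)), S.card = 2 * k + 1 ∧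
        RegularSimplex u S ∧ Module.finrank ℝ (Submodule.span ℝ (u '' S)) = 2 * k ∧
        ∀ i, i ∉ S → ∀ j, i ≠ j → inner ℝ (u i) (u j) = 0))

/-- the vectors: an equilateral triangle in the plane of the first two coordinates, and the
remaining standard basis vectors -/
noncomputable def vec (m : ℕ) (i : Fin (m + 3)) : EuclideanSpace ℝ (Fin (m + 2)) :=
  WithLp.toLp 2 (Fin.cons
    ((Fin.cons 1 (Fin.cons (-1 / 2) (Fin.cons (-1 / 2) fun _ => 0)) : Fin (m + 3) → ℝ) i)
    (Fin.cons
      ((Fin.cons 0 (Fin.cons (√3 / 2) (Fin.cons (-(√3 / 2)) fun _ => 0)) : Fin (m + 3) → ℝ) i)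
      (fun j : Fin m => if i = j.succ.succ.succ then 1 else 0)))

theorem sum_vec (m : ℕ) (ε : Fin (m + 3) → ℝ) : ∑ i, ε i • vec m i =
    WithLp.toLp 2 (Fin.cons (ε 0 - (ε (Fin.succ 0) + ε (Fin.succ (Fin.succ 0))) / 2)
      (Fin.cons (√3 / 2 * (ε (Fin.succ 0) - ε (Fin.succ (Fin.succ 0))))
      (fun j : Fin m => ε j.succ.succ.succ))) := by
  ext j
  simp only [WithLp.ofLp_sum, Finset.sum_apply, WithLp.ofLp_smul, Pi.smul_apply, smul_eq_mul, vec]
  refine Fin.cases ?_ (fun j => ?_) j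
  · simp only [Fin.cons_zero]
    rw [Fin.sum_univ_succ, Fin.sum_univ_succ, Fin.sum_univ_succ]
    simp only [Fin.cons_zero, Fin.cons_succ, mul_zero, Finset.sum_const_zero]
    ring
  · refine Fin.cases ?_ (fun j => ?_) j
    · simp only [Fin.cons_succ, Fin.cons_zero]
      rw [Fin.sum_univ_succ, Fin.sum_univ_succ, Fin.sum_univ_succ]
      simp only [Fin.cons_zero, Fin.cons_succ, mul_zero, Finset.sum_const_zero]
      ring
    · simp only [Fin.cons_succ]
      rw [Finset.sum_eq_single j.succ.succ.succ]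
      · simp
      · intro i _ hi
        simp [hi]
      · simp

theorem norm_sq_sum (m : ℕ) (ε : Fin (m + 3) → ℝ) : ‖∑ i, ε i • vec m i‖ ^ 2 =
    (ε 0 - (ε (Fin.succ 0) + ε (Fin.succ (Fin.succ 0))) / 2) ^ 2 +
      3 / 4 * (ε (Fin.succ 0) - ε (Fin.succ (Fin.succ 0))) ^ 2 +
      ∑ j : Fin m, ε j.succ.succ.succ ^ 2 := by
  rw [sum_vec, EuclideanSpace.norm_sq_eq, Fin.sum_univ_succ, Fin.sum_univ_succ]
  simp only [Fin.cons_zero, Fin.cons_succ, Real.norm_eq_abs, sq_abs]
  have h : √3 ^ 2 = 3 := Real.sq_sqrt (by norm_num)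
  have h2 : (√3 / 2 * (ε (Fin.succ 0) - ε (Fin.succ (Fin.succ 0)))) ^ 2 =
      3 / 4 * (ε (Fin.succ 0) - ε (Fin.succ (Fin.succ 0))) ^ 2 := by
    rw [mul_pow, div_pow, h]; norm_num
  rw [h2]
  ring

theorem norm_vec (m : ℕ) (i : Fin (m + 3)) : ‖vec m i‖ = 1 := by
  have h : ‖vec m i‖ ^ 2 = 1 := by
    have h1 : vec m i = ∑ j, (if j = i then (1 : ℝ) else 0) • vec m j := by
      simp
    rw [h1, norm_sq_sum]
    refine Fin.cases ?_ (fun i => ?_) i
    · simp only [Fin.succ_ne_zero, if_true, if_false]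
      simp
    refine Fin.cases ?_ (fun i => ?_) i
    · simp only [Fin.succ_inj, (Fin.succ_ne_zero _).symm, Fin.succ_ne_zero, if_true, if_false]
      simp
      norm_num
    refine Fin.cases ?_ (fun i => ?_) i
    · simp only [Fin.succ_inj, (Fin.succ_ne_zero _).symm, Fin.succ_ne_zero, if_true, if_false]
      simp
      norm_num
    · simp only [Fin.succ_inj, (Fin.succ_ne_zero _).symm, if_false]
      simp
  nlinarith [norm_nonneg (vec m i)]

theorem norm_sub_ne {m : ℕ} {u : Fin (m + 4) → EuclideanSpace ℝ (Fin (m + 3))}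
    {e : Fin (m + 4) → ℝ} (he : ∀ i, e i = 1 ∨ e i = -1) (hue : ∀ i, u i = e i • vec (m + 1) i) :
    ‖u 0 - u (Fin.succ 0)‖ ≠ ‖u 0 - u (Fin.succ (Fin.succ (Fin.succ 0)))‖ := by
  intro h
  have h1 : u 0 - u (Fin.succ 0) = ∑ i, ((Fin.cons (e 0) (Fin.cons (-e (Fin.succ 0)) fun _ => 0) :
      Fin (m + 4) → ℝ) i) • vec (m + 1) i := by
    rw [Fin.sum_univ_succ, Fin.sum_univ_succ, hue, hue]
    simp only [Fin.cons_zero, Fin.cons_succ, zero_smul, Finset.sum_const_zero, add_zero, neg_smul,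
      sub_eq_add_neg]
  have h2 : u 0 - u (Fin.succ (Fin.succ (Fin.succ 0))) =
      ∑ i, ((Fin.cons (e 0) (Fin.cons 0 (Fin.cons 0 (Fin.cons (-e (Fin.succ (Fin.succ (Fin.succ 0))))
        fun _ => 0))) : Fin (m + 4) → ℝ) i) • vec (m + 1) i := by
    rw [Fin.sum_univ_succ, Fin.sum_univ_succ, Fin.sum_univ_succ, Fin.sum_univ_succ, hue, hue]
    simp only [Fin.cons_zero, Fin.cons_succ, zero_smul, Finset.sum_const_zero, add_zero, neg_smul,
      sub_eq_add_neg, zero_add]
  have h3 := norm_sq_sum (m + 1) (Fin.cons (e 0) (Fin.cons (-e (Fin.succ 0)) fun _ => 0))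
  have h4 := norm_sq_sum (m + 1) (Fin.cons (e 0) (Fin.cons 0 (Fin.cons 0
    (Fin.cons (-e (Fin.succ (Fin.succ (Fin.succ 0)))) fun _ => 0))))
  rw [← h1, h] at h3
  rw [← h2] at h4
  rw [h3, Fin.sum_univ_succ, Fin.sum_univ_succ] at h4
  simp only [Fin.cons_zero, Fin.cons_succ] at h4
  rcases he 0 with h0 | h0 <;> rcases he (Fin.succ 0) with h1 | h1 <;>
    rcases he (Fin.succ (Fin.succ (Fin.succ 0))) with h5 | h5 <;>
    rw [h0, h1, h5] at h4 <;> norm_num at h4

/-- In every even dimension `n ≥ 4` the equality part of the conjecture fails: there are `n + 1`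
families as in the problem and a point `c` for which the maximum is `√(n + 2)`, but which are not
of the conjectured form. -/
theorem result : ∀ n : ℕ, Even n → 4 ≤ n →
    ∃ (U : Fin (n + 1) → Finset (EuclideanSpace ℝ (Fin n))) (c : EuclideanSpace ℝ (Fin n)),
      (∀ i, BalancedFamily (U i)) ∧ IsMaxDist U c (√(n + 2)) ∧ ¬ ConjecturedEquality U c := by
  classical
  intro n hn h4
  obtain ⟨m, rfl⟩ : ∃ m, n = m + 2 := ⟨n - 2, by omega⟩
  have hneg : ∀ i, vec m i ≠ -vec m i := by
    intro i h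
    have h1 : (2 : ℝ) • vec m i = 0 := by
      rw [two_smul]
      nth_rewrite 2 [h]
      simp
    have h2 : vec m i = 0 := by
      rcases smul_eq_zero.1 h1 with h | h
      · norm_num at h
      · exact h
    have h3 := norm_vec m i
    rw [h2] at h3
    simp at h3
  refine ⟨fun i => {vec m i, -vec m i}, 0, fun i => ?_, ⟨?_, ?_⟩, ?_⟩
  · refine ⟨?_, ?_, ?_, fun _ => 1, fun _ _ => one_pos, ?_⟩
    · intro u hu
      simp only [Finset.mem_insert, Finset.mem_singleton] at hu
      rcases hu with rfl | rfl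
      · exact norm_vec m i
      · rw [norm_neg]; exact norm_vec m i
    · rw [Finset.card_pair (hneg i)]
    · rw [Finset.card_pair (hneg i)]; omega
    · rw [Finset.sum_pair (hneg i)]; simp
  · refine ⟨fun i => (Fin.cons 1 (Fin.cons 1 (Fin.cons (-1) fun _ => 1)) : Fin (m + 3) → ℝ) i •
      vec m i, fun i => ?_, ?_⟩
    · simp only [Finset.mem_insert, Finset.mem_singleton]
      refine Fin.cases ?_ (fun i => ?_) i
      · exact Or.inl (by rw [Fin.cons_zero, one_smul])
      refine Fin.cases ?_ (fun i => ?_) i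
      · exact Or.inl (by rw [Fin.cons_succ, Fin.cons_zero, one_smul])
      refine Fin.cases ?_ (fun i => ?_) i
      · exact Or.inr (by rw [Fin.cons_succ, Fin.cons_succ, Fin.cons_zero, neg_one_smul])
      · exact Or.inl (by rw [Fin.cons_succ, Fin.cons_succ, Fin.cons_succ, one_smul])
    · rw [sub_zero, eq_comm, ← Real.sqrt_sq (norm_nonneg _), norm_sq_sum]
      congr 1
      simp only [Fin.cons_zero, Fin.cons_succ]
      simp
      norm_num
      ring
  · rintro r ⟨s, hs, rfl⟩
    have hs' : ∀ i, ∃ e : ℝ, (e = 1 ∨ e = -1) ∧ s i = e • vec m i := by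
      intro i
      have := hs i
      simp only [Finset.mem_insert, Finset.mem_singleton] at this
      rcases this with h | h
      · exact ⟨1, Or.inl rfl, by rw [h, one_smul]⟩
      · exact ⟨-1, Or.inr rfl, by rw [h, neg_one_smul]⟩
    choose e he hse using hs'
    rw [sub_zero, Finset.sum_congr rfl (fun i _ => hse i)]
    apply Real.le_sqrt_of_sq_le
    rw [norm_sq_sum]
    have h1 : ∑ j : Fin m, e j.succ.succ.succ ^ 2 = m := by
      rw [Finset.sum_congr rfl (fun j _ => show e j.succ.succ.succ ^ 2 = (1 : ℝ) by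
        rcases he j.succ.succ.succ with h | h <;> rw [h] <;> norm_num)]
      simp
    rw [h1]
    push_cast
    have h2 : (e 0 - (e (Fin.succ 0) + e (Fin.succ (Fin.succ 0))) / 2) ^ 2 +
        3 / 4 * (e (Fin.succ 0) - e (Fin.succ (Fin.succ 0))) ^ 2 ≤ 4 := by
      rcases he 0 with h0 | h0 <;> rcases he (Fin.succ 0) with h1 | h1 <;>
        rcases he (Fin.succ (Fin.succ 0)) with h2 | h2 <;>
        rw [h0, h1, h2] <;> norm_num
    linarith
  · rintro ⟨-, u, hu, h | h⟩
    · obtain ⟨-, d, hd, hd'⟩ := h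
      have hu' : ∀ i, ∃ e : ℝ, (e = 1 ∨ e = -1) ∧ u i = e • vec m i := by
        intro i
        have h1 : u i ∈ (({vec m i, -vec m i} : Finset _) : Set (EuclideanSpace ℝ (Fin (m + 2)))) := by
          rw [(hu i).2]; exact Set.mem_insert _ _
        simp only [Finset.coe_insert, Finset.coe_singleton, Set.mem_insert_iff,
          Set.mem_singleton_iff] at h1
        rcases h1 with h | h
        · exact ⟨1, Or.inl rfl, by rw [h, one_smul]⟩
        · exact ⟨-1, Or.inr rfl, by rw [h, neg_one_smul]⟩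
      choose e he hue using hu'
      obtain ⟨q, rfl⟩ : ∃ q, m = q + 1 := ⟨m - 1, by omega⟩
      refine norm_sub_ne he hue ?_
      rw [hd' _ (Finset.mem_univ _) _ (Finset.mem_univ _) (Fin.succ_ne_zero _).symm,
        hd' _ (Finset.mem_univ _) _ (Finset.mem_univ _) (Fin.succ_ne_zero _).symm]
    · exact (Nat.not_even_iff_odd.2 h.1) hn

end Pool.Agent.Results.MP_4da8b1_gt.EqualityCase
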